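import Pool.Agent.Helper79.GS.St3

/-! GS module NZB. -/

set_option autoImplicit false

namespace Pool.Agent.Helper58.GS

open Pool.Agent.Helper79.GS

private theorem nzb_bound (c : ℕ → ℤ) (D B : ℕ) (hB : 2 * D + 1 ≤ B) (hc : ∀ e, |c e| ≤ (D : ℤ))
    (N : ℕ) : 2 * |∑ e ∈ Finset.range N, c e * (B : ℤ) ^ e| + 1 ≤ (B : ℤ) ^ N := by
  induction N with
  | zero => simp
  | succ N ih =>
    rw [Finset.sum_range_succ]
    have hBp : (0 : ℤ) ≤ (B : ℤ) ^ N := by positivity
    have h1 : |∑ e ∈ Finset.range N, c e * (B : ℤ) ^ e + c N * (B : ℤ) ^ N| ≤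
        |∑ e ∈ Finset.range N, c e * (B : ℤ) ^ e| + |c N| * (B : ℤ) ^ N := by
      refine (abs_add_le _ _).trans ?_
      rw [abs_mul, abs_of_nonneg hBp]
    have h2 : |c N| * (B : ℤ) ^ N ≤ D * (B : ℤ) ^ N := mul_le_mul_of_nonneg_right (hc N) hBp
    have h3 : ((2 * D + 1 : ℕ) : ℤ) * (B : ℤ) ^ N ≤ (B : ℤ) * (B : ℤ) ^ N :=
      mul_le_mul_of_nonneg_right (by exact_mod_cast hB) hBp
    push_cast at h3
    rw [pow_succ]
    linarith

private theorem nzb_ne (c : ℕ → ℤ) (D B : ℕ) (hB : 2 * D + 1 ≤ B) (hc : ∀ e, |c e| ≤ (D : ℤ))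
    (N : ℕ) (h : ∃ e < N, c e ≠ 0) : (∑ e ∈ Finset.range N, c e * (B : ℤ) ^ e) ≠ 0 := by
  induction N with
  | zero => obtain ⟨e, he, _⟩ := h; omega
  | succ N ih =>
    rw [Finset.sum_range_succ]
    by_cases h0 : c N = 0
    · rw [h0, zero_mul, add_zero]
      apply ih
      obtain ⟨e, he, he'⟩ := h
      refine ⟨e, ?_, he'⟩
      rcases Nat.lt_succ_iff_lt_or_eq.mp he with h1 | h1
      · exact h1
      · rw [h1] at he'; exact absurd h0 he'
    · intro hs
      have hb := nzb_bound c D B hB hc N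
      have hBp : (0 : ℤ) ≤ (B : ℤ) ^ N := by positivity
      have h1 : |∑ e ∈ Finset.range N, c e * (B : ℤ) ^ e| = |c N| * (B : ℤ) ^ N := by
        have : ∑ e ∈ Finset.range N, c e * (B : ℤ) ^ e = -(c N * (B : ℤ) ^ N) := by linarith
        rw [this, abs_neg, abs_mul, abs_of_nonneg hBp]
      have h2 : 1 ≤ |c N| := Int.one_le_abs h0
      have h3 : 1 * (B : ℤ) ^ N ≤ |c N| * (B : ℤ) ^ N := mul_le_mul_of_nonneg_right h2 hBp
      rw [h1] at hb
      linarith

theorem hNZB : StNZB := by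
  intro n D B z hB hz hz0
  set g : Fin (n * n) → ℤ := fun e => z (finProdFinEquiv.symm e).1 (finProdFinEquiv.symm e).2
    with hg
  set c : ℕ → ℤ := fun e => if h : e < n * n then g ⟨e, h⟩ else 0 with hcdef
  have hc : ∀ e, |c e| ≤ (D : ℤ) := by
    intro e
    simp only [hcdef]
    by_cases h : e < n * n
    · rw [dif_pos h]; exact hz _ _
    · rw [dif_neg h]; simp
  have hsum : ∑ i, ∑ j, z i j * (B : ℤ) ^ (i.val * n + j.val) =
      ∑ e ∈ Finset.range (n * n), c e * (B : ℤ) ^ e := by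
    rw [Finset.sum_range]
    have h1 : ∀ e : Fin (n * n), c e.val = g e := by
      intro e
      simp only [hcdef]
      rw [dif_pos e.2]
    rw [← Fintype.sum_prod_type' (f := fun i j : Fin n => z i j * (B : ℤ) ^ (i.val * n + j.val))]
    refine Fintype.sum_equiv finProdFinEquiv _ _ ?_
    rintro ⟨i, j⟩
    rw [h1]
    simp only [hg, Equiv.symm_apply_apply, finProdFinEquiv_apply_val]
    congr 2
    ring
  have hex : ∃ e < n * n, c e ≠ 0 := by
    have h1 : ∃ i j, z i j ≠ 0 := by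
      by_contra hcon
      push Not at hcon
      exact hz0 (by funext i j; exact hcon i j)
    obtain ⟨i, j, hij⟩ := h1
    refine ⟨(finProdFinEquiv (i, j)).val, (finProdFinEquiv (i, j)).2, ?_⟩
    simp only [hcdef]
    rw [dif_pos (finProdFinEquiv (i, j)).2]
    simp only [hg, Fin.eta, Equiv.symm_apply_apply]
    exact hij
  rw [hsum]
  refine ⟨nzb_ne c D B hB hc _ hex, ?_⟩
  have := nzb_bound c D B hB hc (n * n)
  have h0 := abs_nonneg (∑ e ∈ Finset.range (n * n), c e * (B : ℤ) ^ e)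
  linarith

end Pool.Agent.Helper58.GS
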