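import Pool.Agent.Helper79.GS.St5

/-! Project GS (MP_c2d095_lc), module TRC: kinds of entries of the transfer matrix. -/

set_option autoImplicit false

namespace Pool.Agent.Helper58.GS

open Pool.Agent.Helper79.GS

private lemma kinds (n : ℕ) (a : ℕ → ℕ → ℤ) (s t : ℕ) : trK n s t ≤ 3 ∧
    trE n a s t = if trK n s t = 1 then 1 else if trK n s t = 2 then -a (trI n s) (trJ n s t)
      else if trK n s t = 3 then a (trI n s) (trJ n s t) else 0 := by
  unfold trE trK trI trJ
  generalize s / (n + 2) = p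
  generalize s % (n + 2) = q
  generalize t / (n + 2) = p'
  generalize t % (n + 2) = q'
  by_cases h1 : q = n ∧ p < n
  · rw [if_pos h1, if_pos h1, if_pos h1.1]
    by_cases h2 : p' = p + 1 ∧ q' = n
    · rw [if_pos h2, if_pos h2]
      exact ⟨by norm_num, by rw [if_pos rfl]⟩
    · rw [if_neg h2, if_neg h2]
      by_cases h3 : p' = p ∧ p < q' ∧ q' < n
      · rw [if_pos h3, if_pos h3, if_neg (show ¬ (2 : ℕ) = 1 by norm_num), if_pos rfl,
          if_neg (show ¬ q' = n + 1 by omega)]
        exact ⟨by norm_num, rfl⟩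
      · rw [if_neg h3, if_neg h3]
        by_cases h4 : p' = p ∧ q' = n + 1
        · rw [if_pos h4, if_pos h4, if_neg (show ¬ (2 : ℕ) = 1 by norm_num), if_pos rfl,
            if_pos h4.2]
          exact ⟨by norm_num, rfl⟩
        · rw [if_neg h4, if_neg h4, if_neg (show ¬ (0 : ℕ) = 1 by norm_num),
            if_neg (show ¬ (0 : ℕ) = 2 by norm_num), if_neg (show ¬ (0 : ℕ) = 3 by norm_num)]
          exact ⟨by norm_num, rfl⟩
  · rw [if_neg h1, if_neg h1]
    by_cases h2 : q < n ∧ p < q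
    · rw [if_pos h2, if_pos h2, if_neg (show ¬ q = n by omega)]
      by_cases h3 : p' = p ∧ p < q' ∧ q' < n
      · rw [if_pos h3, if_pos h3, if_neg (show ¬ (3 : ℕ) = 1 by norm_num),
          if_neg (show ¬ (3 : ℕ) = 2 by norm_num), if_pos rfl, if_neg (show ¬ q' = n + 1 by omega)]
        exact ⟨by norm_num, rfl⟩
      · rw [if_neg h3, if_neg h3]
        by_cases h4 : p' = p ∧ q' = n + 1
        · rw [if_pos h4, if_pos h4, if_neg (show ¬ (3 : ℕ) = 1 by norm_num),
            if_neg (show ¬ (3 : ℕ) = 2 by norm_num), if_pos rfl, if_pos h4.2]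
          exact ⟨by norm_num, rfl⟩
        · rw [if_neg h4, if_neg h4, if_neg (show ¬ (0 : ℕ) = 1 by norm_num),
            if_neg (show ¬ (0 : ℕ) = 2 by norm_num), if_neg (show ¬ (0 : ℕ) = 3 by norm_num)]
          exact ⟨by norm_num, rfl⟩
    · rw [if_neg h2, if_neg h2]
      by_cases h3 : q = n + 1 ∧ p < n
      · rw [if_pos h3, if_pos h3]
        by_cases h4 : p' = p + 1 ∧ q' = n
        · rw [if_pos h4, if_pos h4]
          exact ⟨by norm_num, by rw [if_pos rfl]⟩
        · rw [if_neg h4, if_neg h4, if_neg (show ¬ (0 : ℕ) = 1 by norm_num),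
            if_neg (show ¬ (0 : ℕ) = 2 by norm_num), if_neg (show ¬ (0 : ℕ) = 3 by norm_num)]
          exact ⟨by norm_num, rfl⟩
      · rw [if_neg h3, if_neg h3, if_neg (show ¬ (0 : ℕ) = 1 by norm_num),
          if_neg (show ¬ (0 : ℕ) = 2 by norm_num), if_neg (show ¬ (0 : ℕ) = 3 by norm_num)]
        exact ⟨by norm_num, rfl⟩

theorem hTRC : StTRC := kinds

end Pool.Agent.Helper58.GS
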