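import Pool.Agent.Helper79.GS.St3

/-! GS module UNQ. -/

set_option autoImplicit false

namespace Pool.Agent.Helper58.GS

open Pool.Agent.Helper79.GS

private theorem two_steps {n : ℕ} (E : Fin n → Fin n → Prop) (σ τ : Equiv.Perm (Fin n))
    (hσ : PMt E σ) (hτ : PMt E τ) (i : Fin n) :
    Wk E 2 (Sum.inl i) (Sum.inl (σ.symm (τ i))) (un i (τ i) - un (σ.symm (τ i)) (τ i)) := by
  have h1 : Wk E 1 (Sum.inl i) (Sum.inr (τ i)) (0 + un i (τ i)) :=
    Wk.cons 0 _ _ _ _ _ (Wk.nil _) (Stp.fw i (τ i) (hτ i))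
  have hE : E (σ.symm (τ i)) (τ i) := by
    have := hσ (σ.symm (τ i))
    rwa [Equiv.apply_symm_apply] at this
  have h2 := Wk.cons 1 _ _ _ _ _ h1 (Stp.bw (σ.symm (τ i)) (τ i) hE)
  rw [zero_add, ← sub_eq_add_neg] at h2
  exact h2

private theorem long_walk {n : ℕ} (hWK1 : StWK1) (E : Fin n → Fin n → Prop)
    (σ τ : Equiv.Perm (Fin n)) (hσ : PMt E σ) (hτ : PMt E τ) (i0 : Fin n) (x : ℕ → Fin n)
    (hx0 : x 0 = i0) (hx : ∀ m, x (m + 1) = σ.symm (τ (x m))) (m : ℕ) :
    Wk E (2 * m) (Sum.inl i0) (Sum.inl (x m))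
      (∑ k ∈ Finset.range m, (un (x k) (τ (x k)) - un (x (k + 1)) (τ (x k)))) := by
  induction m with
  | zero => rw [hx0]; exact Wk.nil _
  | succ m ih =>
    rw [Finset.sum_range_succ]
    have h2 := two_steps E σ τ hσ hτ (x m)
    rw [← hx m] at h2
    exact (hWK1 n E).1 (2 * m) 2 _ _ _ _ _ ih h2

theorem hUNQ (hWK1 : StWK1) : StUNQ := by
  intro n E q hnq hN σ τ hσ hτ
  by_contra hne
  have hex : ∃ i0, σ i0 ≠ τ i0 := by
    by_contra hcon
    push Not at hcon
    exact hne (Equiv.ext hcon)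
  obtain ⟨i0, hi0⟩ := hex
  set f : Fin n → Fin n := fun i => σ.symm (τ i) with hf
  have hfi : Function.Injective f := fun a b h => τ.injective (σ.symm.injective h)
  set x : ℕ → Fin n := fun m => f^[m] i0 with hxdef
  have hx0 : x 0 = i0 := rfl
  have hx : ∀ m, x (m + 1) = σ.symm (τ (x m)) := by
    intro m
    simp only [hxdef]
    rw [Function.iterate_succ_apply']
  -- a period
  have hper : ∃ l, 1 ≤ l ∧ l ≤ n ∧ x l = i0 := by
    have hcard : Fintype.card (Fin n) < Fintype.card (Fin (n + 1)) := by simp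
    obtain ⟨a, b, hab, hxab⟩ := Fintype.exists_ne_map_eq_of_card_lt
      (fun k : Fin (n + 1) => x k.val) hcard
    have key : ∀ a b : ℕ, a < b → b ≤ n → x a = x b → ∃ l, 1 ≤ l ∧ l ≤ n ∧ x l = i0 := by
      intro a b hlt hb h
      refine ⟨b - a, by omega, by omega, ?_⟩
      have h1 : f^[a] (f^[b - a] i0) = f^[a] i0 := by
        rw [← Function.iterate_add_apply, show a + (b - a) = b by omega]
        exact h.symm
      exact (hfi.iterate a) h1
    have hab' : a.val ≠ b.val := fun h => hab (Fin.ext h)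
    rcases Nat.lt_or_gt_of_ne hab' with h | h
    · exact key a b h (by omega) hxab
    · exact key b a h (by omega) hxab.symm
  obtain ⟨l0, hl0, hl0n, hxl0⟩ := hper
  have hP : ∃ l, 1 ≤ l ∧ x l = i0 := ⟨l0, hl0, hxl0⟩
  classical
  set l := Nat.find hP with hl
  obtain ⟨hl1, hxl⟩ := Nat.find_spec hP
  have hln : l ≤ n := (Nat.find_min' hP ⟨hl0, hxl0⟩).trans hl0n
  have hmin : ∀ m, 1 ≤ m → m < l → x m ≠ i0 := by
    intro m h1 h2 h3
    exact Nat.find_min hP h2 ⟨h1, h3⟩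
  have hw := long_walk hWK1 E σ τ hσ hτ i0 x hx0 hx l
  rw [hxl] at hw
  have hw2 := (hWK1 n E).2.2.2.2.2.2 (2 * l) (2 * q) _ _ _ (by omega) hw
  have hz := hN _ _ hw2
  have hz' := congrFun (congrFun hz i0) (τ i0)
  rw [Finset.sum_apply, Finset.sum_apply] at hz'
  have hterm : ∀ k ∈ Finset.range l,
      (un (x k) (τ (x k)) - un (x (k + 1)) (τ (x k))) i0 (τ i0) = if k = 0 then (1 : ℤ) else 0 := by
    intro k hk
    rw [Finset.mem_range] at hk
    have h2 : ¬ (i0 = x (k + 1) ∧ τ i0 = τ (x k)) := by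
      rintro ⟨h3, h4⟩
      have h5 : σ (x (k + 1)) = τ (x k) := by rw [hx k, Equiv.apply_symm_apply]
      rw [← h3, ← h4] at h5
      exact hi0 h5
    by_cases hk0 : k = 0
    · subst hk0
      have h1 : i0 = x 0 ∧ τ i0 = τ (x 0) := ⟨rfl, rfl⟩
      rw [Pi.sub_apply, Pi.sub_apply]
      unfold un
      rw [if_pos h1, if_neg h2, if_pos rfl]
      norm_num
    · have h1 : ¬ (i0 = x k ∧ τ i0 = τ (x k)) := by
        rintro ⟨h3, _⟩
        exact hmin k (by omega) hk h3.symm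
      rw [Pi.sub_apply, Pi.sub_apply]
      unfold un
      rw [if_neg h1, if_neg h2, if_neg hk0]
      norm_num
  rw [Finset.sum_congr rfl hterm, Finset.sum_ite_eq' (Finset.range l) 0 (fun _ => (1 : ℤ)),
    if_pos (Finset.mem_range.mpr (by omega))] at hz'
  simp at hz'

end Pool.Agent.Helper58.GS
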